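import Pool.Agent.H95.RQ.Targets2

/-!
# Module HQQ: a submodule of finite index in the quotient `A / V`
-/

set_option autoImplicit false

namespace Pool.Agent.H92.RQ

open Pool.Agent.H95.RQ

section

variable {A : Type} [CommGroup A] (V : Subgroup A)

/-- the induced map of the quotient -/
noncomputable def sb (s : A →* A) (h : ∀ v ∈ V, s v ∈ V) : A ⧸ V →* A ⧸ V :=
  QuotientGroup.map V V s h

theorem sb_mk (s : A →* A) (h : ∀ v ∈ V, s v ∈ V) (a : A) :
    sb V s h (QuotientGroup.mk' V a) = QuotientGroup.mk' V (s a) := rfl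

theorem sb_iter (s : A →* A) (h : ∀ v ∈ V, s v ∈ V) (i : ℕ) (a : A) :
    (sb V s h)^[i] (QuotientGroup.mk' V a) = QuotientGroup.mk' V (s^[i] a) := by
  induction i generalizing a with
  | zero => rfl
  | succ i ih => rw [Function.iterate_succ_apply, Function.iterate_succ_apply, sb_mk, ih]

theorem nm_mk (s : A →* A) (h : ∀ v ∈ V, s v ∈ V) (n : ℕ) (a : A) :
    nm (sb V s h) n (QuotientGroup.mk' V a) = QuotientGroup.mk' V (nm s n a) := by
  show ∏ i ∈ Finset.range n, (sb V s h)^[i] (QuotientGroup.mk' V a) =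
    QuotientGroup.mk' V (∏ i ∈ Finset.range n, s^[i] a)
  rw [map_prod]
  exact Finset.prod_congr rfl fun i _ => sb_iter V s h i a

theorem dl_mk (s : A →* A) (h : ∀ v ∈ V, s v ∈ V) (a : A) :
    dl (sb V s h) (QuotientGroup.mk' V a) = QuotientGroup.mk' V (dl s a) := by
  show sb V s h (QuotientGroup.mk' V a) / QuotientGroup.mk' V a = QuotientGroup.mk' V (s a / a)
  rw [sb_mk, map_div]

theorem mk_surj (x : A ⧸ V) : ∃ a : A, QuotientGroup.mk' V a = x :=
  QuotientGroup.mk'_surjective V x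

theorem mk_eq_one (a : A) : QuotientGroup.mk' V a = 1 ↔ a ∈ V := by
  rw [← MonoidHom.mem_ker, QuotientGroup.ker_mk']

theorem mk_eq_mk (a b : A) : QuotientGroup.mk' V a = QuotientGroup.mk' V b ↔ a / b ∈ V := by
  rw [← mk_eq_one, map_div, div_eq_one]

theorem comap_map (B : Type) [Group B] (f : B →* A) :
    (((QuotientGroup.mk' V).comp f).range).comap (QuotientGroup.mk' V) = f.range ⊔ V := by
  ext x
  rw [Subgroup.mem_comap, MonoidHom.mem_range, Subgroup.mem_sup]
  constructor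
  · rintro ⟨b, hb⟩
    have h1 : x / f b ∈ V := (mk_eq_mk V _ _).1 hb.symm
    exact ⟨f b, ⟨b, rfl⟩, x / f b, h1, mul_div_cancel _ _⟩
  · rintro ⟨_, ⟨b, rfl⟩, v, hv, rfl⟩
    refine ⟨b, ?_⟩
    show QuotientGroup.mk' V (f b) = QuotientGroup.mk' V (f b * v)
    rw [map_mul, (mk_eq_one V v).2 hv, mul_one]

theorem relIndex_quot (f g : A →* A) (fb gb : A ⧸ V →* A ⧸ V)
    (hf : ∀ a, fb (QuotientGroup.mk' V a) = QuotientGroup.mk' V (f a))
    (hg : ∀ a, gb (QuotientGroup.mk' V a) = QuotientGroup.mk' V (g a)) :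
    ((⊤ : Subgroup (A ⧸ V)).map fb).relIndex (⊤ ⊓ gb.ker) =
      (f.range ⊔ V).relIndex (V.comap g) := by
  have e1 : ((⊤ : Subgroup (A ⧸ V)).map fb) = ((QuotientGroup.mk' V).comp f).range := by
    ext x
    rw [Subgroup.mem_map, MonoidHom.mem_range]
    constructor
    · rintro ⟨y, -, rfl⟩
      obtain ⟨a, rfl⟩ := mk_surj V y
      exact ⟨a, (hf a).symm⟩
    · rintro ⟨a, rfl⟩
      exact ⟨QuotientGroup.mk' V a, trivial, hf a⟩
  have e2 : (⊤ ⊓ gb.ker : Subgroup (A ⧸ V)) = (V.comap g).map (QuotientGroup.mk' V) := by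
    ext x
    rw [Subgroup.mem_map, Subgroup.mem_inf, MonoidHom.mem_ker]
    constructor
    · rintro ⟨-, hx⟩
      obtain ⟨a, rfl⟩ := mk_surj V x
      rw [hg, mk_eq_one] at hx
      exact ⟨a, hx, rfl⟩
    · rintro ⟨a, ha, rfl⟩
      refine ⟨trivial, ?_⟩
      rw [hg, mk_eq_one]
      exact ha
  rw [e1, e2, ← Subgroup.relIndex_comap, comap_map]

end

theorem pf_HQQ (h_HQI : T_HQI) (h_HQM : T_HQM) : T_HQQ := by
  intro A B _ _ s s' n V Φ hn hs hV hΦ hinj hind h0' h1'
  have hΦinj : Function.Injective ((QuotientGroup.mk' V).comp Φ) := by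
    rw [injective_iff_map_eq_one]
    intro b hb
    exact hinj b ((mk_eq_one V _).1 hb)
  obtain ⟨m0, m1⟩ := h_HQM B (A ⧸ V) s' (sb V s hV) n ((QuotientGroup.mk' V).comp Φ) ⊤ hΦinj
    (fun b => by
      show QuotientGroup.mk' V (Φ (s' b)) = sb V s hV (QuotientGroup.mk' V (Φ b))
      rw [sb_mk, hΦ])
  have e0 : h0 (sb V s hV) n ⊤ = h0q s n V :=
    relIndex_quot V (nm s n) (dl s) _ _ (nm_mk V s hV n) (dl_mk V s hV)
  have e1 : h1 (sb V s hV) n ⊤ = h1q s n V :=
    relIndex_quot V (dl s) (nm s n) _ _ (dl_mk V s hV) (nm_mk V s hV n)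
  have key := h_HQI (A ⧸ V) (sb V s hV) n ((⊤ : Subgroup B).map ((QuotientGroup.mk' V).comp Φ)) ⊤
    hn
    (fun x => by
      obtain ⟨a, rfl⟩ := mk_surj V x
      rw [sb_iter, hs])
    (fun x hx => by
      obtain ⟨b, -, rfl⟩ := Subgroup.mem_map.1 hx
      refine Subgroup.mem_map.2 ⟨s' b, trivial, ?_⟩
      show QuotientGroup.mk' V (Φ (s' b)) = sb V s hV (QuotientGroup.mk' V (Φ b))
      rw [sb_mk, hΦ])
    (fun _ _ => trivial) le_top
    (by
      rw [Subgroup.relIndex_top_right, ← MonoidHom.range_eq_map,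
        ← Subgroup.index_comap_of_surjective _ (QuotientGroup.mk'_surjective V), comap_map]
      exact hind)
    (by rw [m0]; exact h0') (by rw [m1]; exact h1')
  rw [m0, m1, e0, e1] at key
  exact key

end Pool.Agent.H92.RQ
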