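import Pool.Agent.H95.RQ.Targets3

/-!
# Module URX: almost all primes are unramified
-/

set_option autoImplicit false

open NumberField NumberField.InfinitePlace IsDedekindDomain

namespace Pool.Agent.H92.RQ

open Pool.Agent.H95.RQ Pool.Agent.H28.RC

/-- an automorphism which is not the identity moves an integer -/
theorem exists_moved {F E : Type} [Field F] [NumberField F] [Field E] [NumberField E]
    [Algebra F E] (g : E ≃ₐ[F] E) (hg : g ≠ 1) : ∃ x : 𝓞 E, g • x ≠ x := by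
  by_contra hcon
  push Not at hcon
  apply hg
  have h1 : ∀ x : 𝓞 E, g (x : E) = x := fun x => congrArg (fun z : 𝓞 E => (z : E)) (hcon x)
  ext y
  obtain ⟨a, b, -, rfl⟩ := IsFractionRing.div_surjective (A := 𝓞 E) y
  rw [map_div₀, AlgEquiv.one_apply]
  exact congrArg₂ (· / ·) (h1 a) (h1 b)

theorem pf_URX : T_URX := by
  classical
  intro F E _ _ _ _ _ _
  have h1 : ∀ g : E ≃ₐ[F] E, ∃ x : 𝓞 E, g ≠ 1 → g • x ≠ x := by
    intro g
    by_cases hg : g = 1
    · exact ⟨0, fun h => absurd hg h⟩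
    · obtain ⟨x, hx⟩ := exists_moved g hg
      exact ⟨x, fun _ => hx⟩
  choose x hx using h1
  set δ : 𝓞 E := ∏ g ∈ Finset.univ.filter (fun g : E ≃ₐ[F] E => g ≠ 1), (g • x g - x g) with hδ
  have hδ0 : δ ≠ 0 := by
    rw [hδ, Finset.prod_ne_zero_iff]
    intro g hg
    exact sub_ne_zero.2 (hx g (Finset.mem_filter.1 hg).2)
  refine ⟨(Ideal.span {δ}).under (𝓞 F), ?_, ?_⟩
  · exact Ideal.comap_ne_bot_of_integral_mem hδ0 (Ideal.mem_span_singleton_self δ)
      (Algebra.IsIntegral.isIntegral δ)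
  · intro Q hQ hQ0 hsup g hg
    by_contra hne
    have h2 : δ ∈ Q := by
      rw [hδ]
      exact Q.mem_of_dvd (Finset.dvd_prod_of_mem (fun g : E ≃ₐ[F] E => g • x g - x g)
        (Finset.mem_filter.2 ⟨Finset.mem_univ g, hne⟩)) (hg (x g))
    have h3 : (Ideal.span {δ}).under (𝓞 F) ≤ Q.under (𝓞 F) :=
      Ideal.comap_mono ((Ideal.span_singleton_le_iff_mem Q).2 h2)
    rw [sup_eq_left.2 h3] at hsup
    have hp : (Q.under (𝓞 F)).IsPrime := inferInstance
    exact hp.ne_top hsup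

end Pool.Agent.H92.RQ
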